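import Pool.Agent.R384.Z.Fm

/-!
# Parity of Selmer groups, odd `p`: definitions (project OP of helper15)

The odd analogue of `Pool/Agent/H76/PS` (`p = 2`).  `K = ℚ(s)`, `s² = -d`, is imaginary quadratic, `p` is an
odd prime which splits in `K`, `ι₀` gives a place `v` of `K` above `p`; `k = K(μ_p)`; `Gk` is the Galois
group of `k`, `Nf` the Galois group of the maximal `p`-extension of `k` unramified outside `p`.
-/

set_option autoImplicit false
set_option linter.unusedSectionVars false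

namespace Pool.Agent.L7h15.OP

open Pool.Agent.Y715.Gi (QB KK GK)
open Pool.Agent.Y715.Nr Pool.Agent.W237.RK
open Pool.Agent.Y715.Df (Cmp)
open Pool.Agent.Z384 (II DD DDs)
open Matrix IsLocalRing

/-! ## Cochains with values in `ZMod p` -/

section abs

variable (p : ℕ) (G : Type) [Group G] [TopologicalSpace G]

/-- the locally constant characters with values in `ZMod p` -/
def HS : Submodule (ZMod p) (G → ZMod p) where
  carrier := {φ | IsLocallyConstant φ ∧ ∀ x y, φ (x * y) = φ x + φ y}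
  add_mem' := by
    rintro φ φ' ⟨h1, h2⟩ ⟨h3, h4⟩
    exact ⟨h1.add h3, fun x y => by simp only [Pi.add_apply, h2, h4]; abel⟩
  zero_mem' := ⟨IsLocallyConstant.const 0, fun x y => by simp⟩
  smul_mem' := by
    rintro a φ ⟨h1, h2⟩
    exact ⟨h1.comp (fun z => a * z), fun x y => by simp only [Pi.smul_apply, h2, smul_add]⟩

/-- the locally constant `2`-cocycles with values in `ZMod p` (trivial action) -/
def Z2 : Submodule (ZMod p) (G → G → ZMod p) where
  carrier := {e | IsLocallyConstant (fun v : G × G => e v.1 v.2) ∧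
    ∀ x y z, e y z - e (x * y) z + e x (y * z) - e x y = 0}
  add_mem' := by
    rintro φ φ' ⟨h1, h2⟩ ⟨h3, h4⟩
    refine ⟨h1.add h3, fun x y z => ?_⟩
    have := congrArg₂ (· + ·) (h2 x y z) (h4 x y z)
    simp only [add_zero] at this
    rw [← this]
    simp only [Pi.add_apply]
    abel
  zero_mem' := ⟨IsLocallyConstant.const 0, fun x y => by simp⟩
  smul_mem' := by
    rintro a φ ⟨h1, h2⟩
    refine ⟨h1.comp (fun z => a * z), fun x y z => ?_⟩
    have := congrArg (a * ·) (h2 x y z)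
    simp only [mul_zero] at this
    rw [← this]
    simp only [Pi.smul_apply, smul_eq_mul]
    ring

/-- the coboundaries of the locally constant functions -/
def B2 : Submodule (ZMod p) (G → G → ZMod p) where
  carrier := {e | ∃ a : G → ZMod p, IsLocallyConstant a ∧ ∀ x y, e x y = a x + a y - a (x * y)}
  add_mem' := by
    rintro φ φ' ⟨a, h1, h2⟩ ⟨a', h3, h4⟩
    refine ⟨a + a', h1.add h3, fun x y => ?_⟩
    simp only [Pi.add_apply, h2, h4]
    abel
  zero_mem' := ⟨0, IsLocallyConstant.const 0, fun x y => by simp⟩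
  smul_mem' := by
    rintro c φ ⟨a, h1, h2⟩
    refine ⟨c • a, h1.comp (fun z => c * z), fun x y => ?_⟩
    simp only [Pi.smul_apply, h2, smul_eq_mul]
    ring

variable {G} {p}

/-- the cup product of two characters -/
def cup (ψ b : G → ZMod p) : G → G → ZMod p := fun x y => ψ x * b y

/-- restriction of a character to a subgroup -/
def rs1 (Q : Subgroup G) (φ : G → ZMod p) : Q → ZMod p := fun x => φ x

/-- restriction of a two-cochain to a subgroup -/
def rs (Q : Subgroup G) (e : G → G → ZMod p) : Q → Q → ZMod p := fun x y => e x y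

/-- the characters `b` with `χ ∪ b = 0` in `H²(G, ZMod p)` -/
def perp (χ : G → ZMod p) : Submodule (ZMod p) (G → ZMod p) where
  carrier := {b | b ∈ HS p G ∧ cup χ b ∈ B2 p G}
  add_mem' := by
    rintro b b' ⟨h1, h2⟩ ⟨h3, h4⟩
    refine ⟨add_mem h1 h3, ?_⟩
    have e : cup χ (b + b') = cup χ b + cup χ b' := by
      funext x y
      simp only [cup, Pi.add_apply, mul_add]
    rw [e]
    exact add_mem h2 h4
  zero_mem' := by
    refine ⟨zero_mem _, ?_⟩
    have e : cup χ (0 : G → ZMod p) = 0 := by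
      funext x y
      simp only [cup, Pi.zero_apply, mul_zero]
    rw [e]
    exact zero_mem _
  smul_mem' := by
    rintro a b ⟨h1, h2⟩
    refine ⟨Submodule.smul_mem _ a h1, ?_⟩
    have e : cup χ (a • b) = a • cup χ b := by
      funext x y
      simp only [cup, Pi.smul_apply, smul_eq_mul]
      ring
    rw [e]
    exact Submodule.smul_mem _ a h2

lemma tr_mem (Q : Subgroup G) (g : G) (x : G ⧸ Q) :
    (g • x : G ⧸ Q).out⁻¹ * g * x.out ∈ Q := by
  rw [mul_assoc, ← QuotientGroup.eq, QuotientGroup.out_eq']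
  conv_lhs => rw [← QuotientGroup.out_eq' x]
  rfl

/-- the transfer (corestriction) of a character `b` of a subgroup `Q` of finite index:
`(tr b)(g) = ∑_{x ∈ G/Q} b(s(gx)⁻¹ g s(x))`, `s = Quotient.out` -/
noncomputable def tr (Q : Subgroup G) (b : Q → ZMod p) (g : G) : ZMod p :=
  ∑ᶠ x : G ⧸ Q, b ⟨(g • x : G ⧸ Q).out⁻¹ * g * x.out, tr_mem Q g x⟩

end abs

/-! ## Coefficients `ℤ_p(χ)` -/

section tw

variable {p : ℕ} [Fact p.Prime] {G : Type} [Group G] [TopologicalSpace G]

/-- continuous `2`-cocycles with values in `ℤ_p(χ)` -/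
def Zp (χ : G → ℤ_[p]) : Set (G → G → ℤ_[p]) :=
  {z | Continuous (fun v : G × G => z v.1 v.2) ∧
    ∀ x y w, χ x * z y w - z (x * y) w + z x (y * w) - z x y = 0}

/-- coboundaries of continuous functions with values in `ℤ_p` -/
def Bp (χ : G → ℤ_[p]) : Set (G → G → ℤ_[p]) :=
  {z | ∃ f : G → ℤ_[p], Continuous f ∧ ∀ x y, z x y = f x + χ x * f y - f (x * y)}

/-- coboundaries of continuous functions with values in `ℚ_p` -/
def Bq (χ : G → ℤ_[p]) : Set (G → G → ℚ_[p]) :=
  {z | ∃ f : G → ℚ_[p], Continuous f ∧ ∀ x y, z x y = f x + χ x * f y - f (x * y)}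

/-- reduction modulo `p` and restriction to the subgroup `P` -/
noncomputable def rP (P : Subgroup G) (z : G → G → ℤ_[p]) : P → P → ZMod p :=
  fun x y => PadicInt.toZMod (z x y)

/-- `χ` is a continuous character -/
structure IsChar (χ : G → ℤ_[p]) : Prop where
  cont : Continuous χ
  one : χ 1 = 1
  mul : ∀ x y, χ (x * y) = χ x * χ y

end tw

/-! ## The local side: open subgroups of the absolute Galois group of `ℚ_p` -/

section loc

variable (p : ℕ) [Fact p.Prime] {G : Type} [Group G] [TopologicalSpace G]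

/-- `r : G → Gal(ℚ̄_p/ℚ_p)` is (the inclusion of) an open subgroup which fixes the `p`-th roots of unity. -/
structure Loc (r : G →* Au p) : Prop where
  cont : Continuous r
  inj : Function.Injective r
  op : IsOpen (r.range : Set (Au p))
  mu : ∀ (g : G) (ζ : PadicAlgCl p), ζ ^ p = 1 → r g ζ = ζ

/-- The dimension formula for the open subgroups of `G` which contain `N`, whose characters are trivial on
`N`. -/
def Cnt (c : ℕ) (N : Subgroup G) : Prop :=
  ∀ U : Subgroup G, IsOpen (U : Set G) → N ≤ U →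
    Module.Finite (ZMod p) (HS p U) ∧ Module.finrank (ZMod p) (HS p U) = c * U.index + 2 ∧
    ∀ φ ∈ HS p U, ∀ n : U, (n : G) ∈ N → φ n = 0

end loc

/-! ## The global side -/

section glob

variable (p : ℕ) [Fact p.Prime]

/-- the Galois group of `k = K(μ_p)` -/
def Gk (s : QB) : Subgroup (GK s) where
  carrier := {σ | ∀ ζ : QB, ζ ^ p = 1 → σ ζ = ζ}
  mul_mem' := by
    intro a b ha hb ζ h
    rw [AlgEquiv.mul_apply, hb ζ h, ha ζ h]
  one_mem' := fun ζ _ => rfl
  inv_mem' := by
    intro a ha ζ h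
    have h1 := congrArg (a⁻¹ : GK s) (ha ζ h)
    rw [← AlgEquiv.mul_apply, inv_mul_cancel, AlgEquiv.one_apply] at h1
    exact h1.symm

/-- `φ` is unramified at the primes `q ≠ p` -/
def Unr {s : QB} {X : Type} [Zero X] (U : Subgroup (GK s)) (φ : U → X) : Prop :=
  ∀ (q : ℕ) [Fact q.Prime] (ι : QB →ₐ[ℚ] PadicAlgCl q), q ≠ p →
    ∀ σ : U, (σ : GK s) ∈ (II ι : Set (GK s)) → φ σ = 0

/-- **The data.**  `K = ℚ(s)` is imaginary quadratic, `p` is odd and splits in `K`, and there is no cyclic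
extension of degree `p` of `K(μ_p)` which is unramified outside `p` and in which the place given by `ι₀`
splits completely. -/
structure Dt (s : QB) (d : ℕ) (ι₀ : QB →ₐ[ℚ] PadicAlgCl p) : Prop where
  odd : p ≠ 2
  sq : s ^ 2 = -(d : QB)
  pos : 0 < d
  ndvd : ¬ p ∣ d
  split : ∃ x : ℤ, (p : ℤ) ∣ x ^ 2 + d
  cond : ∀ φ ∈ HS p (Gk p s), Unr p (Gk p s) φ →
    (∀ σ : Gk p s, (σ : GK s) ∈ DDs ι₀ → φ σ = 0) → φ = 0

/-- `x` is a `p`-unit -/
def PUnit (x : QB) : Prop := x ≠ 0 ∧ ∃ k : ℕ, IsIntegral ℤ ((p : QB) ^ k * x) ∧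
  IsIntegral ℤ ((p : QB) ^ k * x⁻¹)

/-- `N` is the Galois group of `ℚ̄ / M`, `M ⊇ k` a finite Galois extension of `K` with `[M : k]` a power of
`p`, unramified outside `p`. -/
structure TE {s : QB} (N : Subgroup (GK s)) : Prop where
  isOpen : IsOpen (N : Set (GK s))
  normal : N.Normal
  le : N ≤ Gk p s
  index : ∃ a : ℕ, ∀ g ∈ Gk p s, g ^ p ^ a ∈ N
  unramified : ∀ (q : ℕ) [Fact q.Prime] (ι : QB →ₐ[ℚ] PadicAlgCl q), q ≠ p →
    ∀ σ ∈ (II ι : Set (GK s)), σ ∈ N

/-- the intersection of these subgroups -/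
noncomputable def Nf (s : QB) : Subgroup (GK s) := sInf {N | TE p N}

instance normal_Nf (s : QB) : (Nf p s).Normal := by
  constructor
  intro n hn g
  rw [Nf, Subgroup.mem_sInf] at hn ⊢
  intro N hN
  exact hN.normal.conj_mem n (hn N hN) g

/-- the Galois group over `K` of the maximal `p`-extension of `k` unramified outside `p` -/
abbrev Gs (s : QB) : Type := GK s ⧸ Nf p s

/-- its subgroup for `k` -/
noncomputable def Pk (s : QB) : Subgroup (Gs p s) := (Gk p s).map (QuotientGroup.mk' (Nf p s))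

/-- `r` is the restriction homomorphism of the local Galois group -/
structure IsR {s : QB} (ι₀ : QB →ₐ[ℚ] PadicAlgCl p) (r : Au p →* GK s) : Prop where
  cont : Continuous r
  cmp : ∀ τ, Cmp ι₀ τ (r τ)
  range : r.range = DDs ι₀

/-- the map of the local Galois group of `k_v` to `Pk` -/
noncomputable def pr {s : QB} (r : Au p →* GK s) (x : (Gk p s).comap r) : Pk p s :=
  ⟨QuotientGroup.mk (r x), ⟨r x, x.2, rfl⟩⟩

/-- `χ` is the `p`-adic cyclotomic character -/
def IsCyc {s : QB} (χ : GK s → ℤ_[p]) : Prop :=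
  ∀ (σ : GK s) (m : ℕ) (ζ : QB), ζ ^ p ^ m = 1 → σ ζ = ζ ^ (PadicInt.toZModPow m (χ σ)).val

/-- a continuous representation, unramified outside `p`, residually unipotent on the Galois group of
`K(μ_p)` -/
structure Rp {s : QB} {A : Type} [CommRing A] [IsLocalRing A] [TopologicalSpace A] {n : ℕ}
    (ρ : GK s →* GL (Fin n) A) : Prop where
  cont : ∀ i j, Continuous fun σ => (ρ σ : Matrix (Fin n) (Fin n) A) i j
  unipotent : ∀ σ ∈ Gk p s, ∃ m : ℕ, ∀ i j,
    (((ρ σ : Matrix (Fin n) (Fin n) A) - 1) ^ m) i j ∈ maximalIdeal A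
  unramified : ∀ (q : ℕ) [Fact q.Prime] (ι : QB →ₐ[ℚ] PadicAlgCl q), q ≠ p →
    ∀ σ ∈ (II ι : Set (GK s)), ρ σ = 1

/-- continuous invariant cocycles with values in `A(1)` -/
structure ZA {s : QB} {A : Type} [CommRing A] [TopologicalSpace A] [Algebra ℤ_[p] A]
    (χ : GK s → ℤ_[p]) (z : GK s → GK s → A) : Prop where
  cont : Continuous (fun v : GK s × GK s => z v.1 v.2)
  inv1 : ∀ σ τ, ∀ n ∈ Nf p s, z (σ * n) τ = z σ τ
  inv2 : ∀ σ τ, ∀ n ∈ Nf p s, z σ (τ * n) = z σ τ
  coc : ∀ x y w, χ x • z y w - z (x * y) w + z x (y * w) - z x y = 0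

/-- continuous coboundaries with values in `A(1)` -/
def BA {s : QB} (A : Type) [CommRing A] [TopologicalSpace A] [Algebra ℤ_[p] A] (χ : GK s → ℤ_[p]) :
    Set (GK s → GK s → A) :=
  {z | ∃ f : GK s → A, Continuous f ∧ ∀ x y, z x y = f x + χ x • f y - f (x * y)}

end glob

/-- `c` is a complex conjugation -/
def IsConj (c : QB ≃ₐ[ℚ] QB) : Prop := ∃ j : QB →+* ℂ, ∀ x, j (c x) = (starRingEnd ℂ) (j x)

end Pool.Agent.L7h15.OP
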