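import Pool.Agent.L7h15.OP.Defs

/-!
# Parity of Selmer groups, odd `p`: statements of the parts (project OP of helper15)

THEOREM (hard anchor MP_b4b3cb_nt; the file `Pool/Agent/Results/MP_b4b3cb_nt/ParityEveryDimension.lean` of the
starting library is the case `p = 2`).  Let `K = ℚ(√-d)`, `p` an odd prime which splits in `K` such that the
place `v` does not split completely in a cyclic extension of degree `p` of `K(μ_p)` unramified outside `p`.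
Let `V` be a continuous representation of `G_K`, of any dimension, over a finite extension `F` of `ℚ_p`,
unramified outside `p`, residually unipotent on `G_{K(μ_p)}` (that is, the residual constituents are powers of
the cyclotomic character), with a symmetric pairing `V × V^c → F(1)`.  Then for every subspace `L` of
`H¹(K_v, V)` the Selmer group of the classes in `L` at `v` and in `L^⊥` at `v̄`, unramified outside `p`, has
dimension congruent to `dim L` modulo 2.  (For `p = 3` this applies to all newforms of level `3^r`.)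

Most parts are ADAPTATIONS of files of `Pool/Agent/K7/H*/PS/*.lean` (`p = 2`, `k = K`) to odd `p` with
`k = K(μ_p)`; the old file is named in the docstring.  New parts: LIN, TRF, K1, K2, K3, N1, KER, NIN, ASM, STB,
SG1, SG2, SGN (with complete proofs in the docstrings).

Form of the parts: `Pool/Agent/L7hNN/OP/<X>.lean`, `theorem Pool.Agent.L7hNN.OP.s_X : Pool.Agent.L7h15.OP.S_X`,
or `S_U → S_V → S_X` as indicated by (assume ...).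
-/

set_option autoImplicit false
set_option linter.unusedSectionVars false

namespace Pool.Agent.L7h15.OP

open Pool.Agent.Y715.Gi (QB KK GK)
open Pool.Agent.Y715.Nr Pool.Agent.W237.RK
open Pool.Agent.Y715.Df (Cmp)
open Pool.Agent.Z384 (II DD DDs)
open Matrix IsLocalRing

/-! ## Local part -/

/-- LIN (pure linear algebra).  Write `q_i = dim D^(i-1) J - dim D^i J = dim (D^(i-1) J ∩ ker D)`, decreasing in
`i`, `∑_{i=1}^p q_i = dim J`, `q_1 = dim ker D ∈ {c+1, c+2}`, `q_p = n` is the number to be found.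
If `3 ≤ i ≤ p-1` then `q_i = q_(i+1)`: let `y = D^(i-1) x`, `D y = 0`; then `x ∈ ker D^(p-1)`, so
`x ∈ W + k α + D J`, `D² x ∈ D³ J` and `y = D^(i-3) D² x ∈ D^i J`.  Moreover `q_2 ≤ q_3 + 1`: if `y = D x`,
`D y = 0` then `x ∈ ker D² ⊆ ker D^(p-1)`, so `y ∈ D² J + k D α`.  So `q_2 = n + e`, `e ∈ {0, 1}`, and
`p c + 2 = q_1 + q_2 + (p - 2) n = (c + 1 + ε) + (n + e) + (p - 2) n`, `(p-1)(n - c) = 1 - ε - e ∈ {-1, 0, 1}`,
and `p - 1 ≥ 2`; so `n = c`. -/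
def S_LIN : Prop := ∀ (k : Type) [Field k] (J : Type) [AddCommGroup J] [Module k J]
  [FiniteDimensional k J] (D : Module.End k J) (p c : ℕ), 3 ≤ p → D ^ p = 0 →
  ∀ (W : Submodule k J) (α : J), W ≤ LinearMap.ker D → Module.finrank k W = c + 1 →
  D (D α) = 0 →
  (∀ x : J, (D ^ (p - 1)) x = 0 → x ∈ W ⊔ Submodule.span k {α} ⊔ LinearMap.range D) →
  Module.finrank k (LinearMap.ker D) ≤ c + 2 →
  Module.finrank k J = p * c + 2 →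
  Module.finrank k (LinearMap.range (D ^ (p - 1))) = c

/-- TRF (abstract, transfer).  Cochain computation: let `s(x)` be the representatives, `q_x(g) = s(gx)⁻¹ g s(x)`.
Then `q_x(g g') = q_{g'x}(g) q_x(g')`.  The transfer of a two-cochain `e` of `Q` is
`(Tr e)(g, g') = ∑_x e(q_{g'x}(g), q_x(g'))`; it commutes with the differential; for a cocycle `e` of `G`,
`e(q_{g'x}(g), q_x(g')) - e(g, g')` is the coboundary (summed over `x`) of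
`h(g) = ∑_x (e(s(gx)⁻¹, g) + e(s(gx)⁻¹ g, s(x)) - ...)` (natural transformation), so `Tr (res e) ~ [G : Q] e = 0`; and
`∑_x ψ(q_{g'x}(g)) b(q_x(g')) = ψ(g) (tr b)(g') + ∑_x (ψ(s(g'x)) - ψ(s(g g' x))) b(q_x(g'))`, where the last
sum is the coboundary of `± ∑_x ψ(s(gx)) b(q_x(g))`. So `ψ ∪ tr b ~ Tr (res ψ ∪ b) ~ Tr (res e) ~ 0`.
Third clause: for `Q` normal of index `p` and `t ∉ Q` (all transversals give the same value of `tr b`).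
(You may use Mathlib's `MonoidHom.transfer` for the first clauses.) -/
def S_TRF : Prop := ∀ (p : ℕ) [Fact p.Prime] (G : Type) [Group G] [TopologicalSpace G]
  [IsTopologicalGroup G] [CompactSpace G] (Q : Subgroup G), IsOpen (Q : Set G) →
  (∀ b ∈ HS p Q, tr Q b ∈ HS p G) ∧
  (∀ b b' : Q → ZMod p, tr Q (b + b') = tr Q b + tr Q b') ∧
  (∀ [Q.Normal], Q.index = p → ∀ t ∉ Q, ∀ b ∈ HS p Q, ∀ q : Q,
    tr Q b q = ∑ i ∈ Finset.range p, b (MulAut.conjNormal (t ^ i)⁻¹ q)) ∧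
  (∀ e ∈ Z2 p G, ∀ ψ ∈ HS p G, ∀ b ∈ HS p Q, p ∣ Q.index →
    rs Q e - cup (rs1 Q ψ) b ∈ B2 p Q → cup ψ (tr Q b) ∈ B2 p G)

/-- K1 (fields, Hilbert 90).  Let `L` be the fixed field of `r(G)`, `M ⊇ L` the fixed field of `r(Q)`, cyclic of
degree `p` with `t` a generator; `ζ ∈ L` a primitive `p`-th root of unity.  Kummer theory: every `b ∈ HS p Q` is
`κ_y`, `y ∈ M^×`: there is `y' ∈ ℚ̄_p`, `y'^p = y`, `q y' = ζ^{b(q)} y'` (Lagrange resolvent); `κ_y = 0` iff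
`y ∈ M^{×p}`; `tr κ_y = κ_{N y}` (`∏_x s(x) y'` is a `p`-th root of `N y` and `g ∏ s(x) y' = ∏ s(gx) q_x(g) y'`);
`κ_{t y}(q) = κ_y(t⁻¹ q t)`.  If `tr κ_y = 0` then `N y = z^p`, `z ∈ L^×`, `N(y/z) = 1`, and by Hilbert 90
`y = z · t(w)/w`, so `κ_y = κ_z|_Q + κ_w(t⁻¹ · t) - κ_w`. -/
def S_K1 : Prop := ∀ (p : ℕ) [Fact p.Prime], p ≠ 2 → ∀ (G : Type) [Group G] [TopologicalSpace G]
  [IsTopologicalGroup G] [CompactSpace G] (r : G →* Au p), Loc p r → ∀ χ ∈ HS p G,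
  ∀ (Q : Subgroup G) [Q.Normal], (∀ g, g ∈ Q ↔ χ g = 0) → ∀ t : G, χ t = 1 →
  ∀ b ∈ HS p Q, tr Q b = 0 → ∃ φ ∈ HS p G, ∃ ψ ∈ HS p Q, ∀ q : Q,
    b q = φ q + ψ (MulAut.conjNormal t⁻¹ q) - ψ q

/-- K2 (fields).  Notation as in K1.  By the Lagrange resolvent there is `α₀ ∈ ℚ̄_p^×` with
`g α₀ = ζ^{χ(g)} α₀`, so `α₀ ∈ M`, `α₀^p = a ∈ L`, `χ = κ_a`.  Take `α = κ_{α₀}`: `N(α₀) = a` (`p` is odd), so
`tr α = κ_a = χ`, and `t α₀ = ζ α₀`, so `α(t⁻¹ q t) - α(q) = κ_ζ(q)` is the restriction of `κ_ζ`. -/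
def S_K2 : Prop := ∀ (p : ℕ) [Fact p.Prime], p ≠ 2 → ∀ (G : Type) [Group G] [TopologicalSpace G]
  [IsTopologicalGroup G] [CompactSpace G] (r : G →* Au p), Loc p r → ∀ χ ∈ HS p G,
  ∀ (Q : Subgroup G) [Q.Normal], (∀ g, g ∈ Q ↔ χ g = 0) → ∀ t : G, χ t = 1 →
  ∃ α ∈ HS p Q, tr Q α = χ ∧ ∃ φ ∈ HS p G, ∀ q : Q, α (MulAut.conjNormal t⁻¹ q) - α q = φ q

/-- K3 (fields).  Notation as in K1.  Let `ψ = κ_y` be invariant: `t y / y = z^p`, `z ∈ M^×`; `N(z)^p = 1`, so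
`N(z) = ζ^j`; `ℓ(ψ) = j` is well defined (`N(ζ) = 1`) and additive, and if `j = 0` then `z = t(w)/w`,
`y w^{-p} ∈ L`, and `ψ` is the restriction of `κ_{y w^{-p}}`. -/
def S_K3 : Prop := ∀ (p : ℕ) [Fact p.Prime], p ≠ 2 → ∀ (G : Type) [Group G] [TopologicalSpace G]
  [IsTopologicalGroup G] [CompactSpace G] (r : G →* Au p), Loc p r → ∀ χ ∈ HS p G,
  ∀ (Q : Subgroup G) [Q.Normal], (∀ g, g ∈ Q ↔ χ g = 0) → ∀ t : G, χ t = 1 →
  ∃ ℓ : (Q → ZMod p) → ZMod p,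
    (∀ ψ ∈ HS p Q, ∀ ψ' ∈ HS p Q, (∀ q : Q, ψ (MulAut.conjNormal t⁻¹ q) = ψ q) →
      (∀ q : Q, ψ' (MulAut.conjNormal t⁻¹ q) = ψ' q) → ℓ (ψ + ψ') = ℓ ψ + ℓ ψ') ∧
    ∀ ψ ∈ HS p Q, (∀ q : Q, ψ (MulAut.conjNormal t⁻¹ q) = ψ q) → ℓ ψ = 0 →
      ∃ φ ∈ HS p G, ∀ q : Q, ψ q = φ q

/-- N1 (fields).  Notation as in K1.  Let `b = κ_{b₀}`, `β^p = b₀`, `b₀ ∈ L^×`, `χ̃(g) ∈ {0, …, p-1}` the lift of
`χ(g)`.  The coboundary of `g ↦ β^{χ̃(g)}` is `b₀^{carry(g,g')} ζ^{b(g) χ(g')}`,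
`carry = (χ̃(g) + χ̃(g') - χ̃(gg'))/p`.  As `b ∪ χ ~ -χ ∪ b ~ 0`, `b₀^{carry(g,g')} = c(g) g(c(g'))/c(gg')` with
`c : G → ℚ̄_p^×` locally constant.  On `Q` `c` is a cocycle; by Hilbert 90 (divide `c` by a coboundary) we may
assume `c|_Q = 1`.  Then `c(gq) = c(g)` and `c(qg) = q c(g)` for `q ∈ Q`, so `c(g) ∈ M^×` and
`b₀ = c(t) t(c(t)) ⋯ t^{p-1}(c(t)) = N(c(t))` (use `c(t^{i+1}) = c(t^i) t^i(c(t))` for `i + 1 < p`); so
`b = tr κ_{c(t)}`. -/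
def S_N1 : Prop := ∀ (p : ℕ) [Fact p.Prime], p ≠ 2 → ∀ (G : Type) [Group G] [TopologicalSpace G]
  [IsTopologicalGroup G] [CompactSpace G] (r : G →* Au p), Loc p r → ∀ χ ∈ HS p G, χ ≠ 0 →
  ∀ (Q : Subgroup G), (∀ g, g ∈ Q ↔ χ g = 0) →
  ∀ b ∈ HS p G, cup χ b ∈ B2 p G → ∃ b' ∈ HS p Q, b = tr Q b'

/-- KER (fields).  Choose a finite level: `G₁ = G/N₁ = Gal(N/L)` with `e` (up to a coboundary) a cocycle of
`G₁` which is trivial on `H = Gal(N/M)`.  Let `X = N^× × G₁` be the group with the cocycle `ζ^e`; a section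
`s : H → X` is a homomorphism.  Let `x ∈ X` be a lift of `t` (`χ(t) = 1`).  `h ↦ x s(t⁻¹ht) x⁻¹` is another
section, so by Hilbert 90 for `N/M` we may change `x` by an element of `N^×` such that
`x s(t⁻¹ h t) x⁻¹ = s(h)`.  Write `x^p = b₀ s(t^p)`, `b₀ ∈ N^×`; conjugation by `s(h)` and `x` gives
`b₀ ∈ L^×`.  With the section `S(h t^i) = s(h) x^i`, `0 ≤ i < p`, the cocycle becomes `b₀^{carry(g,g')}`
(`carry` as in N1).  So `ζ^e ~ b₀^{carry} ~ ζ^{-b ∪ χ}`, `b = κ_{b₀}`, in `H²(G, ℚ̄_p^×)`, and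
`H²(G, μ_p) → H²(G, ℚ̄_p^×)` is injective by Hilbert 90 (if `ζ^{e'} = ∂f` then `f^p` is a cocycle,
`f^p = g(y)/y`, divide `f` by `g(y')/y'`, `y'^p = y`).  So `e ~ -b ∪ χ ~ χ ∪ b`. -/
def S_KER : Prop := ∀ (p : ℕ) [Fact p.Prime], p ≠ 2 → ∀ (G : Type) [Group G] [TopologicalSpace G]
  [IsTopologicalGroup G] [CompactSpace G] (r : G →* Au p), Loc p r → ∀ χ ∈ HS p G, χ ≠ 0 →
  ∀ (Q : Subgroup G), (∀ g, g ∈ Q ↔ χ g = 0) →
  ∀ e ∈ Z2 p G, rs Q e ∈ B2 p Q → ∃ b ∈ HS p G, e - cup χ b ∈ B2 p G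

/-- NIN (assume LIN, TRF, K1, K2, K3, N1).  Choose `t` with `χ t = 1` (scale `χ`; `perp (a • χ) = perp χ`).
`J = HS p Q`, `τ ψ (q) = ψ(t⁻¹ q t)`, `D = τ - 1`, `D^p = τ^p - 1 = 0`, `D^{p-1} = ∑ τ^i = res ∘ tr`.
`W = res (HS p G)` has dimension `c + 1` (the kernel of `res` is spanned by `χ`).  If `D^{p-1} b = 0` then
`tr b ∈ ker res`, `tr b = j χ = tr (j α)` (K2), `b - j α ∈ W + D J` (K1).  `dim ker D ≤ c + 2` (K3).  LIN gives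
`dim res (tr J) = c`, and `χ ∈ tr J`, so `dim tr J = c + 1`; by N1 and TRF `perp χ = tr J`. -/
def S_NIN : Prop := ∀ (p : ℕ) [Fact p.Prime], p ≠ 2 → ∀ (G : Type) [Group G] [TopologicalSpace G]
  [IsTopologicalGroup G] [CompactSpace G] (r : G →* Au p), Loc p r → ∀ c : ℕ, 1 ≤ c → ∀ χ ∈ HS p G,
  χ ≠ 0 → ∀ (Q : Subgroup G), (∀ g, g ∈ Q ↔ χ g = 0) →
  Module.Finite (ZMod p) (HS p G) → Module.finrank (ZMod p) (HS p G) = c + 2 →
  Module.Finite (ZMod p) (HS p Q) → Module.finrank (ZMod p) (HS p Q) = p * c + 2 →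
  Module.finrank (ZMod p) (perp χ) = c + 1

/-- ASM (assume NIN, TRF, KER).  By NIN `perp χ` is a hyperplane `H(χ)` of `HS p G` for every `χ ≠ 0` (`G` and all
open subgroups which contain `N`; the kernel `Q` of `χ` contains `N` and has index `p`).  Note
`x ∪ y ~ - y ∪ x` (coboundary of `x y`).
(a) The lines `χ ∪ HS` are all equal: for `χ, χ' ≠ 0` choose `x ∉ H(χ) ∪ H(χ')`; then
`χ ∪ HS = ⟨χ ∪ x⟩ = x ∪ HS = ⟨χ' ∪ x⟩ = χ' ∪ HS`.  This is the second clause.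
(b) If `χ, ψ` are independent then `H(χ) ≠ H(ψ)`: otherwise take `x ∉ H = H(χ) = H(ψ)`; all `χ + a ψ ≠ 0` have
the hyperplane `H`, so `(χ + a ψ) ∪ x ≠ 0` and `ψ ∪ x ≠ 0`, but these are in the line `x ∪ HS`: contradiction.
(c) First clause, by induction on `[G : W]` (for all `G`): if `W = G` take `b = 0`.  Otherwise there is a normal
subgroup `Q ⊇ W` of index `p`, the kernel of `χ₀ ∈ HS p G`.  Choose `ψ ∈ HS p G` not a multiple of `χ₀`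
(`dim ≥ 3`), so `ψ|_Q ≠ 0`.  By induction `e|_Q ~ ψ|_Q ∪ b'`.  TRF: `ψ ∪ tr b' ~ 0`.  The kernel of
`b'' ↦ ψ|_Q ∪ b''` is a hyperplane of `HS p Q` and it is contained (TRF with `e = 0`) in the kernel of
`b'' ↦ ψ ∪ tr b''`, which is `tr⁻¹(H(ψ))`, of codimension `1` as `tr (HS p Q) = H(χ₀) ≠ H(ψ)`
(`tr (HS p Q) ⊆ H(χ₀)` by TRF with `e = 0`; equality by N1, which you may also assume).  So they are equal,
`ψ|_Q ∪ b' ~ 0`, `e|_Q ~ 0`, and KER gives `e ~ χ₀ ∪ b`, then use (a).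
You may use also N1. -/
def StA : Prop := ∀ (p : ℕ) [Fact p.Prime], p ≠ 2 → ∀ (G : Type) [Group G] [TopologicalSpace G]
  [IsTopologicalGroup G] [CompactSpace G] (r : G →* Au p), Loc p r → ∀ (c : ℕ) (N : Subgroup G),
  1 ≤ c → N.Normal → Cnt p c N → ∀ χ ∈ HS p G, χ ≠ 0 →
  (∀ e ∈ Z2 p G, (∃ W : Subgroup G, W.Normal ∧ IsOpen (W : Set G) ∧ N ≤ W ∧ (∃ a : ℕ, W.index = p ^ a) ∧
    rs W e ∈ B2 p W) → ∃ b ∈ HS p G, e - cup χ b ∈ B2 p G) ∧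
  (∀ ψ₁ ∈ HS p G, ∀ ψ₂ ∈ HS p G, ∃ a₁ a₂ : ZMod p, (a₁ ≠ 0 ∨ a₂ ≠ 0) ∧
    cup χ (a₁ • ψ₁ + a₂ • ψ₂) ∈ B2 p G)

/-- The assembly ASM. -/
def S_ASM : Prop := S_NIN → S_TRF → S_N1 → S_KER → StA

/-- STB (assume TRF; Steinberg relation).  `κ ∪ κ' ~ 0` for `κ = κ_ζ`, `κ' = κ_p`.  If `κ = 0` clear.  Otherwise
`Q = ker κ` is the group of `M = L(η)`, `η^p = ζ`; put `y = ∏_{i=1}^{p-1} (1 - η^i) ∈ M^×`;
`N_{M/L}(1 - η^i) = ∏_j (1 - ζ^{ij} η^i)= 1 - ζ^i` and `∏_i (1 - ζ^i) = p`, so `N(y) = p`,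
`κ' = tr κ_y` (see K1), and TRF with `e = 0`, `ψ = κ` (zero on `Q`) gives `κ ∪ tr κ_y ~ 0`. -/
def S_STB : Prop := ∀ (p : ℕ) [Fact p.Prime], p ≠ 2 → ∀ (G : Type) [Group G] [TopologicalSpace G]
  [IsTopologicalGroup G] [CompactSpace G] (r : G →* Au p), Loc p r →
  ∀ ζ η ϖ : PadicAlgCl p, IsPrimitiveRoot ζ p → η ^ p = ζ → ϖ ^ p = (p : PadicAlgCl p) →
  ∀ κ ∈ HS p G, ∀ κ' ∈ HS p G, (∀ g, r g η = ζ ^ (κ g).val * η) → (∀ g, r g ϖ = ζ ^ (κ' g).val * ϖ) →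
  cup κ κ' ∈ B2 p G

/-- C1 (adapt `K7/H35/PS/C1.lean`): a finite extension `L ∋ ζ_p` of degree `m` of `ℚ_p` has at most `p ^ (m + 2)`
classes modulo `p`-th powers.  (Shorter: with `U'` = the units `1 + π^N O`, `N` large, on which `x ↦ x^p` is
injective with image of index `p^m`: `[U : U^p] = #μ_p [U' : U'^p] = p^{m+1}`.) -/
def S_C1 : Prop := ∀ (p : ℕ) [Fact p.Prime], p ≠ 2 →
  ∀ L : IntermediateField ℚ_[p] (PadicAlgCl p), FiniteDimensional ℚ_[p] L →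
    (∃ ζ ∈ L, IsPrimitiveRoot ζ p) →
    ∃ R : Finset (PadicAlgCl p), R.card ≤ p ^ (Module.finrank ℚ_[p] L + 2) ∧
      ∀ x ∈ L, x ≠ 0 → ∃ r ∈ R, ∃ y ∈ L, r ∈ L ∧ r ≠ 0 ∧ x = r * y ^ p

/-- C2 (assume C1; adapt `K7/H81/PS/C2.lean`; Kummer theory). -/
def StC : Prop := ∀ (p : ℕ) [Fact p.Prime], p ≠ 2 → ∀ V : Subgroup (Au p), IsOpen (V : Set (Au p)) →
  (∀ σ ∈ V, ∀ ζ : PadicAlgCl p, ζ ^ p = 1 → σ ζ = ζ) →
    Module.Finite (ZMod p) (HS p V) ∧ Module.finrank (ZMod p) (HS p V) ≤ V.index + 2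

/-! ## Global part -/

/-- D1 (adapt `K7/H5/PS/D1.lean`): the `p`-units of a totally complex number field of degree `2 m`, which
contains the `p`-th roots of unity and has two primes above `p`: `m - 1` fundamental units, a generator of the
roots of unity of `p`-power order, and two elements (powers of the primes `P₁`, `P₂`, divided out). -/
def S_D1 : Prop := ∀ (p : ℕ) [Fact p.Prime], p ≠ 2 →
  ∀ (N : Type) [Field N] [NumberField N] (m : ℕ), Module.finrank ℚ N = 2 * m →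
    NumberField.InfinitePlace.nrRealPlaces N = 0 → (∃ ζ : N, IsPrimitiveRoot ζ p) →
    ∀ P₁ P₂ : Ideal (NumberField.RingOfIntegers N), P₁.IsPrime → P₂.IsPrime → P₁ ≠ P₂ →
      (p : NumberField.RingOfIntegers N) ∈ P₁ → (p : NumberField.RingOfIntegers N) ∈ P₂ →
      ∃ u : Fin (m + 2) → N, (∀ i, u i ≠ 0) ∧
        (∀ i, ∃ k : ℕ, IsIntegral ℤ ((p : N) ^ k * u i) ∧ IsIntegral ℤ ((p : N) ^ k * (u i)⁻¹)) ∧
        ∀ a : Fin (m + 2) → ZMod p, (∃ y : N, y ^ p = ∏ i, u i ^ (a i).val) → a = 0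

/-- D2 (assume D1; adapt `K7/H15/PS/D2.lean`). -/
def StD : Prop := ∀ (p : ℕ) [Fact p.Prime] (s : QB) (d : ℕ) (ι₀ : QB →ₐ[ℚ] PadicAlgCl p),
  Dt p s d ι₀ → ∀ U : Subgroup (GK s), IsOpen (U : Set (GK s)) → U ≤ Gk p s →
    ∃ u : Fin (U.index + 2) → QB, (∀ i, ∀ σ ∈ U, σ (u i) = u i) ∧ (∀ i, PUnit p (u i)) ∧
      ∀ a : Fin (U.index + 2) → ZMod p,
        (∃ y : QB, (∀ σ ∈ U, σ y = y) ∧ y ^ p = ∏ i, u i ^ (a i).val) → a = 0

/-- D3 (adapt `K7/H34/PS/D3.lean`): the `p ^ k`-th roots of the `p`-units are unramified at `q ≠ p`. -/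
def StD3 : Prop := ∀ (p : ℕ) [Fact p.Prime] (s : QB) (q : ℕ) [Fact q.Prime]
  (ι : QB →ₐ[ℚ] PadicAlgCl q), q ≠ p →
    ∀ σ ∈ (II ι : Set (GK s)), ∀ (x : QB) (k : ℕ), PUnit p (x ^ p ^ k) →
      σ (x ^ p ^ k) = x ^ p ^ k → σ x = x

/-- CYC: `[ℚ_p(ζ_p) : ℚ_p] = p - 1` and `ι₀(s) ∈ ℚ_p` (as `-d` is a square in `ℤ_p` by Hensel): every `τ ∈ Au p`
restricts to an element of `DDs ι₀`, and the automorphisms of `ℚ_p(ζ_p)` extend to `Au p`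
(`Φ_p(X+1)` is an Eisenstein polynomial). -/
def S_CYC : Prop := ∀ (p : ℕ) [Fact p.Prime] (s : QB) (d : ℕ) (ι₀ : QB →ₐ[ℚ] PadicAlgCl p),
  Dt p s d ι₀ → ∀ σ : GK s, ∃ δ ∈ DDs ι₀, δ⁻¹ * σ ∈ Gk p s

/-- E0 (assume CYC, E1; adapt `K7/H34/PS/E0.lean`).  `k/K` is unramified outside `p` and `[k : K] ∣ p - 1`.  The
clause on the density: first CYC, then for `σ ∈ Gk`, `N` with `TE p N`: `Gk/N` is a `p`-group and if the image of
`DDs ι₀ ∩ Gk` is not everything then it lies in the kernel of a character `≠ 0` of `Gk` with values in `ZMod p`,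
trivial on `N` (so unramified outside `p`): contradiction to `Dt.cond`.  Last clause: compactness. -/
def StE0 : Prop := ∀ (p : ℕ) [Fact p.Prime] (s : QB) (d : ℕ) (ι₀ : QB →ₐ[ℚ] PadicAlgCl p),
  Dt p s d ι₀ →
    IsOpen (Gk p s : Set (GK s)) ∧ (Gk p s).Normal ∧ ¬ p ∣ (Gk p s).index ∧ TE p (Gk p s) ∧
    CompactSpace (Gs p s) ∧
    (∀ U : Subgroup (GK s), IsOpen (U : Set (GK s)) → Nf p s ≤ U → ∃ N, TE p N ∧ N ≤ U) ∧
    (∀ U : Subgroup (GK s), IsOpen (U : Set (GK s)) → Nf p s ≤ U → U ≤ Gk p s →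
      ∃ a : ℕ, U.relIndex (Gk p s) = p ^ a) ∧
    (∀ U : Subgroup (GK s), IsOpen (U : Set (GK s)) → Nf p s ≤ U → U ≤ Gk p s → ∀ φ ∈ HS p U,
      Unr p U φ → ∀ σ : U, (σ : GK s) ∈ Nf p s → φ σ = 0) ∧
    (∀ U : Subgroup (GK s), IsOpen (U : Set (GK s)) → Nf p s ≤ U →
      ∀ g : GK s, ∃ δ ∈ DDs ι₀, δ⁻¹ * g ∈ U) ∧
    (∀ g : GK s, ∃ δ ∈ DDs ι₀, δ⁻¹ * g ∈ Nf p s)

/-- E1 (adapt `K7/H15/PS/E1.lean`): the restriction homomorphism of the local Galois group. -/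
def StE1 : Prop := ∀ (p : ℕ) [Fact p.Prime] (s : QB) (d : ℕ) (ι₀ : QB →ₐ[ℚ] PadicAlgCl p),
  Dt p s d ι₀ → ∃ r : Au p →* GK s, IsR p ι₀ r

/-- E2 (assume C, D, D3, E0; adapt `K7/H82/PS/E2.lean`).  `U ⊇ Nf`, `U ≤ Gk`, is the group of a field `F' ⊇ k`;
`V = r⁻¹(U)` is the group of its completion at `v`, `[Au p : V] = [GK : U]` by the density.  Kummer characters of
the `U.index + 2` units of `StD` are in `HS p U`, unramified outside `p` (D3), so trivial on `Nf`; they are linearly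
independent, the restriction to `V` is injective on the characters trivial on `Nf` (density) and `HS p V` has
dimension `≤ V.index + 2` (C).  So all are equalities. -/
def StE : Prop := ∀ (p : ℕ) [Fact p.Prime] (s : QB) (d : ℕ) (ι₀ : QB →ₐ[ℚ] PadicAlgCl p),
  Dt p s d ι₀ → ∀ r : Au p →* GK s, IsR p ι₀ r →
    (∀ U : Subgroup (GK s), IsOpen (U : Set (GK s)) → Nf p s ≤ U → U ≤ Gk p s →
      Module.Finite (ZMod p) (HS p (U.comap r)) ∧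
      Module.finrank (ZMod p) (HS p (U.comap r)) = U.index + 2 ∧ (U.comap r).index = U.index) ∧
    (∀ U : Subgroup (GK s), IsOpen (U : Set (GK s)) → Nf p s ≤ U → U ≤ Gk p s →
      ∀ φ ∈ HS p (U.comap r), ∃ φ' ∈ HS p U, (∀ σ : U, (σ : GK s) ∈ Nf p s → φ' σ = 0) ∧
        ∀ (τ : Au p) (h : τ ∈ U.comap r) (h' : r τ ∈ U), φ' ⟨r τ, h'⟩ = φ ⟨τ, h⟩) ∧
    (∀ ζ : QB, IsPrimitiveRoot ζ p → ∀ φ ∈ HS p (Gk p s),
      (∀ σ : Gk p s, (σ : GK s) ∈ Nf p s → φ σ = 0) →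
      ∃ x : QB, PUnit p (x ^ p) ∧ (∀ σ ∈ Gk p s, σ (x ^ p) = x ^ p) ∧
        ∀ σ : Gk p s, (σ : GK s) x = ζ ^ (φ σ).val * x)

/-- E2. -/
def S_E2 : Prop := StC → StD → StD3 → StE0 → StE

/-- G1 (adapt `K7/H79/PS/G1.lean`; D3).  Last clause: `ζ_{p²} ∉ k`, as
`[k : ℚ] ≤ 2 (p - 1) < p (p - 1) = [ℚ(ζ_{p²}) : ℚ]`. -/
def StG1 : Prop := ∀ (p : ℕ) [Fact p.Prime] (s : QB) (d : ℕ) (ι₀ : QB →ₐ[ℚ] PadicAlgCl p),
  Dt p s d ι₀ → ∀ χ : GK s → ℤ_[p], IsCyc p χ → IsChar χ ∧ (∀ σ, ∀ τ ∈ Nf p s, χ (σ * τ) = χ σ) ∧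
    (∀ σ ∈ Gk p s, PadicInt.toZMod (χ σ) = 1) ∧
    ∃ σ ∈ Gk p s, ∃ ζ : QB, ζ ^ p ^ 2 = 1 ∧ σ ζ ≠ ζ

/-- LGp (assume E, E0; see the end of `K7/H91/PS/LG.lean` for the similar argument with `ℤ_2(χ)`).  Let
`e(π x, π y) = f x + f y - f (x y)` on `V_k = (Gk p s).comap r`, `π = pr p r`.  (Normalize `e(1,1) = 0`, `f(1) = 0`.)  Let
`N' = (Nf p s).comap r`.  `f(n x) = f(n) + f(x)`, `f(x n) = f(x) + f(n)` for `n ∈ N'`, so `f|_{N'}` is a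
homomorphism, invariant under conjugation by `V_k`.  There is an open normal subgroup `W` of `V_k` with
`f(x w) = f(x)`, `w ∈ W`; so `φ(n w) = f(n)` is a well defined locally constant character of the open subgroup `N' W`
of `V_k`, and `N' W = U.comap r` with `U = Nf · r(W)` open, `Nf ≤ U ≤ Gk`.  By (ii) of `StE` `φ` extends to a
character of `U` which is trivial on `Nf`, so `f|_{N'} = 0`, `f` factors through `π` (surjective, quotient map by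
compactness) and `e ∈ B2 p (Pk p s)`. -/
def StLGp : Prop := ∀ (p : ℕ) [Fact p.Prime] (s : QB) (d : ℕ) (ι₀ : QB →ₐ[ℚ] PadicAlgCl p),
  Dt p s d ι₀ → ∀ r : Au p →* GK s, IsR p ι₀ r → ∀ e ∈ Z2 p (Pk p s),
    (fun x y => e (pr p r x) (pr p r y)) ∈ B2 p ((Gk p s).comap r) → e ∈ B2 p (Pk p s)

/-- LG (assume E, E0, G1; adapt `K7/H91/PS/LG.lean`): a two-cocycle which is trivial on the decomposition
group is trivial.  (`f` on `Nf ∩ DDs` is a homomorphism; `f(δ n δ⁻¹) = χ(δ) f(n)`; if it is not zero, divide it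
by the maximal power of `p`; modulo `p` it is invariant under `DDs ∩ Gk` and as in LGp it is zero.) -/
def StLG : Prop := ∀ (p : ℕ) [Fact p.Prime] (s : QB) (d : ℕ) (ι₀ : QB →ₐ[ℚ] PadicAlgCl p),
  Dt p s d ι₀ → ∀ (A : Type) [CommRing A] [IsDomain A] [TopologicalSpace A] [IsTopologicalRing A]
    [Algebra ℤ_[p] A] (r : ℕ) (b : Module.Basis (Fin r) ℤ_[p] A),
    (∀ e, Continuous fun a : A => b.repr a e) → Continuous (fun t : ℤ_[p] => algebraMap ℤ_[p] A t) →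
    ∀ χ : GK s → ℤ_[p], IsCyc p χ → ∀ z : GK s → GK s → A, ZA p χ z → z 1 1 = 0 →
      (∃ f : DDs (s := s) ι₀ → A, Continuous f ∧ ∀ δ δ' : DDs (s := s) ι₀,
        z δ δ' = f δ + χ δ • f δ' - f (δ * δ')) →
      z ∈ BA p A χ

/-- StP (assume A, E, E0, E1, LGp).  Pull back to `V_k = (Gk p s).comap r ≤ Au p` (`Loc`, with
`N = (Nf p s).comap r` and `c = (Gk p s).index`; `Cnt` by `StE` (i), (ii): the open subgroups of `V_k` which contain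
`N` are the `U.comap r`).  A cocycle `e ∈ Z2 p (Pk p s)` is constant on `W × W` for an open normal subgroup `W` of
`Pk` of `p`-power index; apply A; the characters of `V_k` come from `Pk` (StE (ii)), and LGp. -/
def StP : Prop := ∀ (p : ℕ) [Fact p.Prime] (s : QB) (d : ℕ) (ι₀ : QB →ₐ[ℚ] PadicAlgCl p),
  Dt p s d ι₀ → ∀ χ ∈ HS p (Pk p s), χ ≠ 0 →
    (∀ e ∈ Z2 p (Pk p s), ∃ b ∈ HS p (Pk p s), e - cup χ b ∈ B2 p (Pk p s)) ∧
    (∀ ψ₁ ∈ HS p (Pk p s), ∀ ψ₂ ∈ HS p (Pk p s), ∃ a₁ a₂ : ZMod p, (a₁ ≠ 0 ∨ a₂ ≠ 0) ∧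
      cup χ (a₁ • ψ₁ + a₂ • ψ₂) ∈ B2 p (Pk p s))

/-- The job P. -/
def S_P : Prop := StA → StE → StE0 → StE1 → StLGp → StP

/-- B (abstract; adapt `K7/H57/PS/B1.lean` and the first part of `B2.lean`).
(a) If `z ∈ Zp χ` and `rP P z ∈ B2 p P` then `z = p z' + ∂f`, `z' ∈ Zp χ`: the index of `P` is prime to `p`, so (average
over `G/P`, twisted by `χ mod p`, which is trivial on `P`) `z mod p` is a coboundary on `G` with values in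
`F_p(χ)`; lift the locally constant function.
(b) If `rP P z₁ ∉ B2 p P` then by (a) and the hypothesis and iteration every `z ∈ Zp χ` is `a z₁ + ∂f`,
`a ∈ ℤ_p`, `f : G → ℤ_p` continuous.
(c) Every `z ∈ Zp χ` is in `Bp χ` or `p^k z' + ∂f` with `rP P z' ∉ B2 p P` (compactness: if all the steps (a) work
then `z ∈ Bp χ`).  So the first clause holds.
(d) Second clause: if all `z ∈ Bq` clear; else let `z₁` be as in (b), `z₁^c := z₁(c ·, c ·) ∈ Zp χ`.  By the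
second hypothesis and (a), (b): `z₁^c = (1 + p a) z₁ + ∂f`; applying `c` again:
`((1 + p a)² - 1) z₁ = p a (2 + p a) z₁ ∈ Bp`, and `2 + p a` is a unit (`p` is odd), so `p a z₁ ∈ Bp`, and
`z₁^c - z₁ ∈ Bp`. By (c) the claim follows for all `z`. -/
def StB : Prop := ∀ (p : ℕ) [Fact p.Prime], p ≠ 2 → ∀ (G : Type) [Group G] [TopologicalSpace G]
  [IsTopologicalGroup G] [CompactSpace G] (P : Subgroup G), P.Normal → IsOpen (P : Set G) →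
  ¬ p ∣ P.index → ∀ χ : G → ℤ_[p], IsChar χ → (∀ x ∈ P, PadicInt.toZMod (χ x) = 1) →
  (∀ z₁ ∈ Zp χ, ∀ z₂ ∈ Zp χ, rP P z₁ ∉ B2 p P → ∃ a : ZMod p, rP P z₂ - a • rP P z₁ ∈ B2 p P) →
  ∀ c : G → G, Continuous c → (∀ x y, c (x * y) = c x * c y) → (∀ x, c (c x) = x) →
    (∀ x, χ (c x) = χ x) →
    (∀ z ∈ Zp χ, (fun x y : P => PadicInt.toZMod (z (c x) (c y)) - PadicInt.toZMod (z x y)) ∈ B2 p P) →
      (∃ z₀ ∈ Zp χ, ∀ z ∈ Zp χ, ∃ a : ℚ_[p],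
        (fun x y => ((z x y : ℤ_[p]) : ℚ_[p]) - a * (z₀ x y : ℤ_[p])) ∈ Bq χ) ∧
      (∀ z ∈ Zp χ, (fun x y => ((z (c x) (c y) : ℤ_[p]) : ℚ_[p]) - (z x y : ℤ_[p])) ∈ Bq χ)

/-- SG1 (abstract).  For `g ∈ G`: `z(g x g⁻¹, g y g⁻¹) - χ(g) z(x, y)` is the coboundary of the continuous function
`x ↦ ± (z(g x g⁻¹, g) - z(g, x))`, so with `e = rP P z`, `ω = χ mod p`: `e^g ~ ω(g) e`, and `e ~ κ ∪ ψ` gives
`κ ∪ ψ^g ~ ω(g) κ ∪ ψ`, `ψ^g(x) = ψ(g x g⁻¹)` (which depends only on `g P`).  Average: `m = [G : P]` is prime to `p`,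
`ψ' = m⁻¹ ∑_{g ∈ G/P} ω(g)⁻¹ ψ^g`. -/
def S_SG1 : Prop := ∀ (p : ℕ) [Fact p.Prime] (G : Type) [Group G] [TopologicalSpace G]
  [IsTopologicalGroup G] [CompactSpace G] (P : Subgroup G) [P.Normal], IsOpen (P : Set G) →
  ¬ p ∣ P.index → ∀ χ : G → ℤ_[p], IsChar χ → (∀ x ∈ P, PadicInt.toZMod (χ x) = 1) →
  ∀ z ∈ Zp χ, ∀ κ ∈ HS p P, (∀ (g : G) (x : P), κ (MulAut.conjNormal g x) = κ x) →
  ∀ ψ ∈ HS p P, rP P z - cup κ ψ ∈ B2 p P →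
  ∃ ψ' ∈ HS p P, rP P z - cup κ ψ' ∈ B2 p P ∧
    ∀ (g : G) (x : P), ψ' (MulAut.conjNormal g x) = PadicInt.toZMod (χ g) * ψ' x

/-- SG2 (assume E, E0, D3; Kummer theory).  By E (iii) there is `x₀` with `x₀^p` a `p`-unit of `k`,
`σ x₀ = ζ^{ψ(σ)} x₀` for `σ ∈ Gk`.  For `g ∈ GK s`: `σ (g x₀) = g (g⁻¹ σ g) x₀ = (g ζ)^{ψ(g⁻¹σg)} g x₀ = ζ^{ψ(σ)} g x₀`.
Let `X = ∏_{g ∈ GK/Gk} g x₀` (representatives), `m = [GK : Gk]`: `σ X = ζ^{m ψ(σ)} X`, `X^p` is a `p`-unit of `K`.  Then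
`σ (c X) = c (cσc) X = ζ^{-m ψ(cσc)} c X`; `Y = X · c X`, `σ Y = ζ^{m (ψ(σ) - ψ(cσc))} Y`, and `Y^p ∈ K` is fixed by
`c`, so it is a rational `p`-unit: `Y^p = ± p^j = (± ϖ^j)^p`, so `Y = ζ^i (±1) ϖ^j`; so
`m (ψ - ψ^c) = j κ'` on `Gk`. -/
def S_SG2 : Prop := ∀ (p : ℕ) [Fact p.Prime] (s : QB) (d : ℕ) (ι₀ : QB →ₐ[ℚ] PadicAlgCl p),
  Dt p s d ι₀ → ∀ χ : GK s → ℤ_[p], IsCyc p χ →
    ∀ c : QB ≃ₐ[ℚ] QB, IsConj c → ∀ cj : GK s → GK s, (∀ σ x, cj σ x = c (σ (c x))) →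
    ∀ ζ ϖ : QB, IsPrimitiveRoot ζ p → ϖ ^ p = (p : QB) →
    ∀ ψ ∈ HS p (Gk p s), (∀ σ : Gk p s, (σ : GK s) ∈ Nf p s → ψ σ = 0) →
    (∀ (g : GK s) (σ σ' : Gk p s), (σ' : GK s) = g * σ * g⁻¹ →
      ψ σ' = PadicInt.toZMod (χ g) * ψ σ) →
    ∃ κ' ∈ HS p (Gk p s), (∀ σ : Gk p s, (σ : GK s) ∈ Nf p s → κ' σ = 0) ∧
      (∀ σ : Gk p s, (σ : GK s) ϖ = ζ ^ (κ' σ).val * ϖ) ∧
      ∃ a : ZMod p, ∀ σ σ' : Gk p s, (σ' : GK s) = cj σ → ψ σ - ψ σ' = a * κ' σ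

/-- SGN (the sign; assume P, E0, E1, G1, LGp, STB, SG1, SG2).  Let `P = Pk p s`, `e = rP P z`, `ζ` a primitive
`p`-th root of unity, `η^p = ζ`, `κ ∈ HS p P` with `σ η = ζ^{κ(σ)} η`: not zero by G1, and invariant
under conjugation by `GK s` and by `c` (`σ η₁ = η₁^{χ(σ)}` for all `p²`-th roots of unity, `κ = (χ - 1)/p` mod `p`).
(1) P: `e ~ κ ∪ ψ₀`; SG1: `e ~ κ ∪ ψ` with `ψ(g x g⁻¹) = ω(g) ψ(x)`.
(2) SG2: `ψ - ψ^c = a κ'`, `κ' = κ_p`, on `Gk`, so on `P`.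
(3) `κ ∪ κ' ~ 0` on `P` by LGp and STB (on `V_k = (Gk p s).comap r`, with `ι₀ ζ`, `ι₀ η`, `ι₀ ϖ`).  So
`κ ∪ ψ ~ κ ∪ ψ^c = (κ ∪ ψ)^c`, and `e ~ e^c`. -/
def StH : Prop := ∀ (p : ℕ) [Fact p.Prime] (s : QB) (d : ℕ) (ι₀ : QB →ₐ[ℚ] PadicAlgCl p),
  Dt p s d ι₀ → ∀ χ : GK s → ℤ_[p], IsCyc p χ →
    ∀ χ' : Gs p s → ℤ_[p], (∀ σ : GK s, χ' (QuotientGroup.mk σ) = χ σ) →
    ∀ c : QB ≃ₐ[ℚ] QB, IsConj c → ∀ cj : GK s → GK s, (∀ σ x, cj σ x = c (σ (c x))) →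
    ∀ c' : Gs p s → Gs p s, (∀ σ : GK s, c' (QuotientGroup.mk σ) = QuotientGroup.mk (cj σ)) →
    ∀ z ∈ Zp χ', (fun x y : Pk p s =>
      PadicInt.toZMod (z (c' x) (c' y)) - PadicInt.toZMod (z x y)) ∈ B2 p (Pk p s)

/-- The job SGN. -/
def S_SGN : Prop := StP → StE0 → StE1 → StG1 → StLGp → S_STB → S_SG1 → S_SG2 → StH

/-! ## Representations -/

/-- FF (assume E, E0; compare `K7/H22/PS/F1.lean`; here it is simpler because of the last clause of `StE0`).  Let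
`W = {δ ∈ DDs ∩ Gk : r' δ = 1}`, open and normal in `DDs`, with `(DDs ∩ Gk)/W` a finite `p`-group: a chain
`DDs ∩ Gk = W_0 > W_1 > … > W_m = W` of subgroups with `W_{i+1}` normal of index `p` in `W_i`.  By (ii) of `StE`
there are open subgroups `Gk = U_0 > U_1 > …` which contain `Nf` with `U_i ∩ DDs = W_i` (kernels of the extended
characters).  So `Nf ∩ DDs ≤ W`.  As `GK s = DDs · Nf`, `R(δ n) = r' δ` is well defined; it is locally constant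
(kernel `⊇ W · Nf`, open by compactness). -/
def StFF : Prop := ∀ (p : ℕ) [Fact p.Prime] (s : QB) (d : ℕ) (ι₀ : QB →ₐ[ℚ] PadicAlgCl p),
  Dt p s d ι₀ → ∀ (H : Type) [Group H] [Finite H] (r' : DDs (s := s) ι₀ →* H),
    IsLocallyConstant (fun δ => r' δ) →
    (∃ a : ℕ, ∀ δ : DDs (s := s) ι₀, (δ : GK s) ∈ Gk p s → (r' δ) ^ p ^ a = 1) →
    ∃ R : GK s →* H, IsLocallyConstant (fun σ => R σ) ∧ (∀ σ ∈ Nf p s, R σ = 1) ∧
      ∀ δ : DDs (s := s) ι₀, R (δ : GK s) = r' δ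

/-- The job FF. -/
def S_FF : Prop := StE → StE0 → StE1 → StFF

/-- REP (assume FF, E0; adapt `K7/H60/PS/F2.lean`). -/
def StRep : Prop := ∀ (p : ℕ) [Fact p.Prime] (s : QB) (d : ℕ) (ι₀ : QB →ₐ[ℚ] PadicAlgCl p),
  Dt p s d ι₀ → ∀ (A : Type) [CommRing A] [IsLocalRing A] [IsNoetherianRing A] [TopologicalSpace A]
    [IsTopologicalRing A], IsAdic (maximalIdeal A) → IsAdicComplete (maximalIdeal A) A →
    Finite (ResidueField A) → (p : A) ∈ maximalIdeal A →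
    ∀ (n : ℕ) (ρ : GK s →* GL (Fin n) A), Rp p ρ → ∀ l : DDs (s := s) ι₀ → Fin n → A,
      Continuous l → (∀ δ δ', l (δ * δ') = l δ +
        (ρ (δ : GK s) : Matrix (Fin n) (Fin n) A) *ᵥ l δ') →
      ∃ x : GK s → Fin n → A, Continuous x ∧
        (∀ σ τ, x (σ * τ) = x σ + (ρ σ : Matrix (Fin n) (Fin n) A) *ᵥ x τ) ∧
        (∀ (q : ℕ) [Fact q.Prime] (ι : QB →ₐ[ℚ] PadicAlgCl q), q ≠ p →
          ∀ σ ∈ (II ι : Set (GK s)), x σ = 0) ∧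
        ∀ δ : DDs (s := s) ι₀, x (δ : GK s) = l δ

/-- The job REP. -/
def S_REP : Prop := StFF → StE0 → StRep

/-- TOP (adapt `K7/H35/PS/Top.lean`): the topology of the coefficient ring. -/
def StTop : Prop := ∀ (p : ℕ) [Fact p.Prime] (A : Type) [CommRing A] [IsDomain A] [IsLocalRing A]
    [TopologicalSpace A] [IsTopologicalRing A]
    [Algebra ℤ_[p] A], IsAdic (maximalIdeal A) → ∀ (r : ℕ) (b : Module.Basis (Fin r) ℤ_[p] A),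
      (p : A) ∈ maximalIdeal A ∧ (∀ m : ℕ, m ≠ 0 → (m : A) ≠ 0) ∧ Finite (ResidueField A) ∧
      IsAdicComplete (maximalIdeal A) A ∧ IsNoetherianRing A ∧
      (∀ e, Continuous fun a : A => b.repr a e) ∧ Continuous (fun t : ℤ_[p] => algebraMap ℤ_[p] A t)

end Pool.Agent.L7h15.OP
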